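import Pool.Agent.H354R3.ZN.All3

set_option autoImplicit false

open MeasureTheory H354ZN

namespace Pool.Agent.Results.MP_9dd972_gt.ReflectionUniqueness

/-- Uniqueness in the `L_p`-Minkowski problem, `0 < p < 1`, for symmetric convex bodies invariant
under the reflections in `n - 2` coordinate hyperplanes. -/
theorem result (n : ℕ) (p : ℝ) (K C : Set (EuclideanSpace ℝ (Fin n))) (hn : 2 ≤ n) (hp0 : 0 < p)
    (hp1 : p < 1) (hK : SB K) (hC : SB C) (hKR : Ref K) (hCR : Ref C)
    (h : SLp p K = SLp p C) : K = C :=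
  a_UNR n p K C hn hp0 hp1 hK hC hKR hCR h

end Pool.Agent.Results.MP_9dd972_gt.ReflectionUniqueness
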