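import Pool.Agent.H354R3.ZN.All2

set_option autoImplicit false

open MeasureTheory H354ZN

namespace Pool.Agent.Results.MP_9dd972_gt.ZonoidUniqueness

/-- Uniqueness in the `L_p`-Minkowski problem, `0 < p < 1`, among zonoids. -/
theorem result (n : ℕ) (p : ℝ) (K C : Set (EuclideanSpace ℝ (Fin n))) (hn : 1 ≤ n) (hp : 0 < p)
    (hp1 : p < 1) (hK : SB K) (hC : SB C) (hKZ : IsZonoid K) (hCZ : IsZonoid C)
    (h : SLp p K = SLp p C) : K = C :=
  a_UNI n p K C hn hp hp1 hK hC hKZ hCZ h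

end Pool.Agent.Results.MP_9dd972_gt.ZonoidUniqueness
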